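import Pool.Agent.Helper66.DS.Defs

/-!
# DS module KVol: volume bounds for caps and annuli
-/

set_option autoImplicit false

namespace Pool.Agent.Helper66.DS

open MeasureTheory Set

/-- The axis `e₀`. -/
noncomputable def kvE (d : ℕ) : E d := EuclideanSpace.single 0 1

theorem kv_norm_e (d : ℕ) : ‖kvE d‖ = 1 := by
  simp [kvE]

theorem kv_inner_e {d : ℕ} (x : E d) : inner ℝ (kvE d) x = x 0 := by
  rw [kvE, EuclideanSpace.inner_single_left]
  simp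

theorem kv_aa {d : ℕ} (x : E d) : aa (kvE d) x = ‖x‖⁻¹ * x 0 := by
  rw [aa, kv_inner_e, dir]
  simp

/-- Closed truncated cones. -/
def KK (d : ℕ) (T R : ℝ) : Set (E d) := {x | |x 0| ≤ R ∧ ‖x‖ ^ 2 - x 0 ^ 2 ≤ T ^ 2 * x 0 ^ 2}

/-- Truncated cones, open at the side. -/
def KO (d : ℕ) (T R : ℝ) : Set (E d) := {x | |x 0| ≤ R ∧ ‖x‖ ^ 2 - x 0 ^ 2 < T ^ 2 * x 0 ^ 2}

/-- The diagonal map. -/
noncomputable def kvD (d : ℕ) (T : ℝ) : E d →ₗ[ℝ] E d :=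
  Matrix.toLin (EuclideanSpace.basisFun (Fin (d + 1)) ℝ).toBasis
    (EuclideanSpace.basisFun (Fin (d + 1)) ℝ).toBasis
    (Matrix.diagonal (Fin.cons 1 (fun _ => T)))

theorem kvD_det (d : ℕ) (T : ℝ) : LinearMap.det (kvD d T) = T ^ d := by
  rw [kvD, LinearMap.det_toLin, Matrix.det_diagonal, Fin.prod_univ_succ]
  simp

theorem kvD_apply (d : ℕ) (T : ℝ) (x : E d) (i : Fin (d + 1)) :
    kvD d T x i = (Fin.cons 1 (fun _ => T) : Fin (d + 1) → ℝ) i * x i := by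
  have : kvD d T x = Matrix.toEuclideanLin (Matrix.diagonal (Fin.cons 1 (fun _ => T))) x := rfl
  rw [this, Matrix.toLpLin_apply]
  simp [Matrix.mulVec_diagonal]

theorem kvD_zero (d : ℕ) (T : ℝ) (x : E d) : kvD d T x 0 = x 0 := by
  rw [kvD_apply]
  simp

theorem kv_r {d : ℕ} (x : E d) : ‖x‖ ^ 2 - x 0 ^ 2 = ∑ i : Fin d, x i.succ ^ 2 := by
  rw [EuclideanSpace.real_norm_sq_eq, Fin.sum_univ_succ]
  ring

theorem kvD_r (d : ℕ) (T : ℝ) (x : E d) :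
    ‖kvD d T x‖ ^ 2 - kvD d T x 0 ^ 2 = T ^ 2 * (‖x‖ ^ 2 - x 0 ^ 2) := by
  rw [kv_r, kv_r, Finset.mul_sum]
  refine Finset.sum_congr rfl fun i _ => ?_
  rw [kvD_apply]
  simp only [Fin.cons_succ]
  ring

theorem kv_meas_coord (d : ℕ) : Measurable (fun x : E d => x 0) := by
  fun_prop

theorem KK_meas (d : ℕ) (T R : ℝ) : MeasurableSet (KK d T R) :=
  (measurableSet_le (f := fun x : E d => |x 0|) (g := fun _ => R) (by fun_prop)
    (by fun_prop)).inter (measurableSet_le (f := fun x : E d => ‖x‖ ^ 2 - x 0 ^ 2)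
      (g := fun x => T ^ 2 * x 0 ^ 2) (by fun_prop) (by fun_prop))

theorem KO_meas (d : ℕ) (T R : ℝ) : MeasurableSet (KO d T R) :=
  (measurableSet_le (f := fun x : E d => |x 0|) (g := fun _ => R) (by fun_prop)
    (by fun_prop)).inter (measurableSet_lt (f := fun x : E d => ‖x‖ ^ 2 - x 0 ^ 2)
      (g := fun x => T ^ 2 * x 0 ^ 2) (by fun_prop) (by fun_prop))

theorem KK_bdd (d : ℕ) (T R : ℝ) : Bornology.IsBounded (KK d T R) := by
  apply (Metric.isBounded_closedBall (x := (0 : E d)) (r := (1 + |T|) * R)).subset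
  rintro x ⟨h1, h2⟩
  rw [mem_closedBall_zero_iff]
  have hR : 0 ≤ R := (abs_nonneg _).trans h1
  refine (sq_le_sq₀ (norm_nonneg _) (by positivity)).1 ?_
  have h3 : x 0 ^ 2 ≤ R ^ 2 := by
    rw [← sq_abs]
    gcongr
  calc ‖x‖ ^ 2 ≤ (1 + T ^ 2) * x 0 ^ 2 := by linarith
    _ ≤ (1 + T ^ 2) * R ^ 2 := by gcongr
    _ ≤ ((1 + |T|) * R) ^ 2 := by
      rw [mul_pow]
      gcongr
      rw [← sq_abs T]
      nlinarith [abs_nonneg T]

theorem KK_fin (d : ℕ) (T R : ℝ) : volume (KK d T R) ≠ ⊤ := (KK_bdd d T R).measure_lt_top.ne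

theorem KO_sub (d : ℕ) (T R : ℝ) : KO d T R ⊆ KK d T R := fun _ hx => ⟨hx.1, hx.2.le⟩

theorem KO_fin (d : ℕ) (T R : ℝ) : volume (KO d T R) ≠ ⊤ :=
  ((KK_bdd d T R).subset (KO_sub d T R)).measure_lt_top.ne

/-- The scaling of the volume for `T > 0`. -/
theorem KK_vol_pos (d : ℕ) {T : ℝ} (hT : 0 < T) (R : ℝ) :
    volume.real (KK d T R) = T ^ d * volume.real (KK d 1 R) := by
  have hdet : LinearMap.det (kvD d T⁻¹) ≠ 0 := by
    rw [kvD_det]
    positivity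
  have hpre : KK d T R = kvD d T⁻¹ ⁻¹' KK d 1 R := by
    ext x
    simp only [KK, mem_preimage, mem_ofPred_eq]
    rw [kvD_r, kvD_zero]
    have h1 : ‖x‖ ^ 2 - x 0 ^ 2 ≤ T ^ 2 * x 0 ^ 2 ↔
        T⁻¹ ^ 2 * (‖x‖ ^ 2 - x 0 ^ 2) ≤ 1 ^ 2 * x 0 ^ 2 := by
      rw [inv_pow, inv_mul_le_iff₀ (by positivity)]
      simp
    rw [h1]
  rw [hpre, Measure.real, Measure.addHaar_preimage_linearMap _ hdet, ENNReal.toReal_mul,
    Measure.real, kvD_det, ENNReal.toReal_ofReal (abs_nonneg _)]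
  congr 1
  rw [inv_pow, inv_inv, abs_of_pos (by positivity)]

/-- The truncated cones have positive volume. -/
theorem KK_pos (d : ℕ) {R : ℝ} (hR : 0 < R) : 0 < volume.real (KK d 1 R) := by
  have hU : IsOpen {x : E d | |x 0| < R ∧ ‖x‖ ^ 2 - x 0 ^ 2 < 1 ^ 2 * x 0 ^ 2} :=
    (isOpen_lt (f := fun x : E d => |x 0|) (g := fun _ => R) (by fun_prop) (by fun_prop)).inter
      (isOpen_lt (f := fun x : E d => ‖x‖ ^ 2 - x 0 ^ 2) (g := fun x => 1 ^ 2 * x 0 ^ 2)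
        (by fun_prop) (by fun_prop))
  have hne : ((R / 2) • kvE d) ∈ {x : E d | |x 0| < R ∧ ‖x‖ ^ 2 - x 0 ^ 2 < 1 ^ 2 * x 0 ^ 2} := by
    have h0 : ((R / 2) • kvE d) 0 = R / 2 := by
      simp [kvE]
    have h1 : ‖(R / 2) • kvE d‖ = R / 2 := by
      rw [norm_smul, kv_norm_e, mul_one, Real.norm_eq_abs, abs_of_pos (by positivity)]
    refine ⟨?_, ?_⟩
    · rw [h0, abs_of_pos (by positivity)]
      linarith
    · rw [h0, h1]
      nlinarith
  have hpos := hU.measure_pos volume ⟨_, hne⟩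
  refine ENNReal.toReal_pos (ne_of_gt (lt_of_lt_of_le hpos ?_)) (KK_fin d 1 R)
  apply measure_mono
  rintro x ⟨h1, h2⟩
  exact ⟨h1.le, h2.le⟩

/-- `V_{K(0)} = 0`, and the scaling for all `T ≥ 0`. -/
theorem KK_vol (d : ℕ) (hd : 1 ≤ d) {T : ℝ} (hT : 0 ≤ T) (R : ℝ) :
    volume.real (KK d T R) = T ^ d * volume.real (KK d 1 R) := by
  rcases hT.eq_or_lt with rfl | hT
  · rw [zero_pow (by omega), zero_mul]
    apply le_antisymm ?_ measureReal_nonneg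
    have h1 : ∀ s : ℝ, 0 < s → volume.real (KK d 0 R) ≤ s ^ d * volume.real (KK d 1 R) := by
      intro s hs
      rw [← KK_vol_pos d hs R]
      apply measureReal_mono ?_ (KK_fin d s R)
      rintro x ⟨h1, h2⟩
      refine ⟨h1, h2.trans ?_⟩
      nlinarith [sq_nonneg (x 0), sq_nonneg s, mul_nonneg (sq_nonneg s) (sq_nonneg (x 0))]
    have h2 : Filter.Tendsto (fun s : ℝ => s ^ d * volume.real (KK d 1 R))
        (nhdsWithin 0 (Ioi 0)) (nhds (0 ^ d * volume.real (KK d 1 R))) := by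
      apply Filter.Tendsto.mono_left ?_ nhdsWithin_le_nhds
      exact (((continuous_id.pow d).mul continuous_const).tendsto 0)
    rw [zero_pow (by omega), zero_mul] at h2
    refine ge_of_tendsto h2 ?_
    filter_upwards [self_mem_nhdsWithin] with s hs
    exact h1 s hs
  · exact KK_vol_pos d hT R

/-- The lower bound for the open cones. -/
theorem KO_vol (d : ℕ) (hd : 1 ≤ d) {T : ℝ} (hT : 0 ≤ T) (R : ℝ) :
    T ^ d * volume.real (KK d 1 R) ≤ volume.real (KO d T R) := by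
  have h1 : ∀ s : ℝ, 0 < s → s < 1 →
      (s * T) ^ d * volume.real (KK d 1 R) ≤ volume.real (KO d T R) := by
    intro s hs0 hs1
    rw [← KK_vol d hd (by positivity) R]
    rcases hT.eq_or_lt with rfl | hT
    · rw [mul_zero, KK_vol d hd le_rfl R, zero_pow (by omega), zero_mul]
      exact measureReal_nonneg
    · have h2 : KK d (s * T) R ⊆ KO d T R ∪ {0} := by
        rintro x ⟨h1, h2⟩
        by_cases hx : x = 0
        · exact Or.inr hx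
        · left
          refine ⟨h1, lt_of_le_of_lt h2 ?_⟩
          have hx0 : 0 < x 0 ^ 2 := by
            by_contra hc
            have hc' : x 0 ^ 2 = 0 := le_antisymm (not_lt.mp hc) (sq_nonneg _)
            rw [hc'] at h2
            have : ‖x‖ ^ 2 ≤ 0 := by linarith
            have h3 : ‖x‖ = 0 := by
              nlinarith [norm_nonneg x]
            exact hx (norm_eq_zero.mp h3)
          rw [mul_pow]
          have : s ^ 2 < 1 := by nlinarith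
          have hT2 : 0 < T ^ 2 := by positivity
          nlinarith [mul_pos hT2 hx0]
      calc volume.real (KK d (s * T) R) ≤ volume.real (KO d T R ∪ {0}) :=
            measureReal_mono h2 (by
              apply ne_of_lt
              refine lt_of_le_of_lt (measure_union_le _ _) ?_
              rw [measure_singleton, add_zero]
              exact (KO_fin d T R).lt_top)
        _ ≤ volume.real (KO d T R) + volume.real ({0} : Set (E d)) := measureReal_union_le _ _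
        _ = volume.real (KO d T R) := by
            rw [Measure.real, Measure.real, measure_singleton]
            simp
  have h2 : Filter.Tendsto (fun s : ℝ => (s * T) ^ d * volume.real (KK d 1 R))
      (nhdsWithin 1 (Iio 1)) (nhds ((1 * T) ^ d * volume.real (KK d 1 R))) := by
    apply Filter.Tendsto.mono_left ?_ nhdsWithin_le_nhds
    have : Continuous (fun s : ℝ => (s * T) ^ d * volume.real (KK d 1 R)) := by fun_prop
    exact this.tendsto 1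
  rw [one_mul] at h2
  refine le_of_tendsto h2 ?_
  filter_upwards [self_mem_nhdsWithin, mem_nhdsWithin_of_mem_nhds (Ioi_mem_nhds (a := (0:ℝ)) one_pos)]
    with s hs hs'
  exact h1 s hs' hs

/-- Rotation of the axis. -/
theorem kv_rot {d : ℕ} (ξ : E d) (hξ : ‖ξ‖ = 1) (P : ℝ → Prop) :
    volume.real {x | x ∈ ball1 d ∧ P (aa ξ x)} =
      volume.real {x | x ∈ ball1 d ∧ P (aa (kvE d) x)} := by
  obtain ⟨f, hf⟩ : ∃ f : E d ≃ₗᵢ[ℝ] E d, f (kvE d) = ξ :=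
    ⟨_, Submodule.reflection_sub (by rw [hξ, kv_norm_e])⟩
  have hpre : {x | x ∈ ball1 d ∧ P (aa (kvE d) x)} = f ⁻¹' {x | x ∈ ball1 d ∧ P (aa ξ x)} := by
    ext x
    have h1 : aa ξ (f x) = aa (kvE d) x := by
      rw [aa, aa, dir, dir, f.norm_map, ← hf, ← map_smul, f.inner_map_map]
    simp only [mem_preimage, mem_ofPred_eq, h1, ball1, mem_ball_zero_iff, f.norm_map]
  rw [hpre]
  unfold Measure.real
  congr 1
  exact (f.measurePreserving.measure_preimage_equiv (f := f.toHomeomorph.toMeasurableEquiv)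
    _).symm

theorem kv_ball {d : ℕ} (x : E d) : x ∈ ball1 d ↔ ‖x‖ < 1 := by
  rw [ball1, mem_ball_zero_iff]

theorem cap_lower (d : ℕ) (hd : 1 ≤ d) : ∃ c : ℝ, 0 < c ∧ ∀ ξ : E d, ‖ξ‖ = 1 →
    ∀ τ : ℝ, 1 / 2 ≤ τ → τ ≤ 1 →
      c * (Real.sqrt (1 - τ ^ 2)) ^ d ≤ volume.real {x | x ∈ ball1 d ∧ τ ≤ |aa ξ x|} := by
  refine ⟨volume.real (KK d 1 (1 / 4)), KK_pos d (by norm_num), fun ξ hξ τ h1 h2 => ?_⟩
  rw [kv_rot ξ hξ (fun t => τ ≤ |t|)]
  set ρ := Real.sqrt (1 - τ ^ 2) with hρ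
  have hτ2 : τ ^ 2 ≤ 1 := by nlinarith
  have hρ0 : 0 ≤ ρ := Real.sqrt_nonneg _
  have hρ2 : ρ ^ 2 = 1 - τ ^ 2 := Real.sq_sqrt (by linarith)
  have hτ0 : 0 < τ := by linarith
  have hsub : KK d (ρ / τ) (1 / 4) ⊆ {x | x ∈ ball1 d ∧ τ ≤ |aa (kvE d) x|} ∪ {0} := by
    rintro x ⟨hx1, hx2⟩
    by_cases hx : x = 0
    · exact Or.inr hx
    · left
      have hn : 0 < ‖x‖ := norm_pos_iff.mpr hx
      have hk : τ ^ 2 * ‖x‖ ^ 2 ≤ x 0 ^ 2 := by
        rw [div_pow, div_mul_eq_mul_div, le_div_iff₀ (by positivity), hρ2] at hx2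
        linear_combination hx2
      have hk2 : τ * ‖x‖ ≤ |x 0| := by
        refine (sq_le_sq₀ (by positivity) (abs_nonneg _)).1 ?_
        rw [mul_pow, sq_abs]
        exact hk
      refine ⟨?_, ?_⟩
      · rw [kv_ball]
        nlinarith
      · show τ ≤ |aa (kvE d) x|
        rw [kv_aa, abs_mul, abs_of_pos (inv_pos.mpr hn), inv_mul_eq_div, le_div_iff₀ hn]
        exact hk2
  have hfin : volume {x | x ∈ ball1 d ∧ τ ≤ |aa (kvE d) x|} ≠ ⊤ := by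
    apply ne_of_lt
    refine lt_of_le_of_lt (measure_mono (fun x hx => hx.1)) ?_
    exact measure_ball_lt_top
  calc volume.real (KK d 1 (1 / 4)) * ρ ^ d
      ≤ volume.real (KK d 1 (1 / 4)) * (ρ / τ) ^ d := by
        gcongr
        rw [le_div_iff₀ hτ0]
        nlinarith
    _ = volume.real (KK d (ρ / τ) (1 / 4)) := by
        rw [mul_comm, ← KK_vol d hd (div_nonneg hρ0 hτ0.le)]
    _ ≤ volume.real ({x | x ∈ ball1 d ∧ τ ≤ |aa (kvE d) x|} ∪ {0}) :=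
        measureReal_mono hsub (by
          apply ne_of_lt
          refine lt_of_le_of_lt (measure_union_le _ _) ?_
          rw [measure_singleton, add_zero]
          exact hfin.lt_top)
    _ ≤ volume.real {x | x ∈ ball1 d ∧ τ ≤ |aa (kvE d) x|} + volume.real ({0} : Set (E d)) :=
        measureReal_union_le _ _
    _ = volume.real {x | x ∈ ball1 d ∧ τ ≤ |aa (kvE d) x|} := by
        have : volume.real ({0} : Set (E d)) = 0 := by
          rw [Measure.real, measure_singleton]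
          simp
        rw [this, add_zero]

theorem kv_pow_sub {n : ℕ} {s t : ℝ} (hs : 0 ≤ s) (hst : s ≤ t) :
    t ^ (n + 1) - s ^ (n + 1) ≤ (n + 1) * t ^ n * (t - s) := by
  induction n with
  | zero => simp
  | succ n ih =>
    have ht : 0 ≤ t := hs.trans hst
    have h1 : t ^ (n + 1 + 1) - s ^ (n + 1 + 1) =
        t * (t ^ (n + 1) - s ^ (n + 1)) + s ^ (n + 1) * (t - s) := by ring
    rw [h1]
    have h2 : t * (t ^ (n + 1) - s ^ (n + 1)) ≤ t * ((n + 1) * t ^ n * (t - s)) := by gcongr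
    have h3 : s ^ (n + 1) * (t - s) ≤ t ^ (n + 1) * (t - s) := by
      have : 0 ≤ t - s := by linarith
      gcongr
    calc _ ≤ t * ((n + 1) * t ^ n * (t - s)) + t ^ (n + 1) * (t - s) := add_le_add h2 h3
      _ = _ := by push_cast; ring

/-- `φ(q) = q / sqrt (1 - q²)`. -/
noncomputable def kvPhi (q : ℝ) : ℝ := q / Real.sqrt (1 - q ^ 2)

theorem kvPhi_sq {q : ℝ} (hq : q ^ 2 < 1) : kvPhi q ^ 2 * (1 - q ^ 2) = q ^ 2 := by
  rw [kvPhi, div_pow, Real.sq_sqrt (by linarith), div_mul_cancel₀ _ (by linarith)]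

theorem kvPhi_nonneg {q : ℝ} (hq : 0 ≤ q) : 0 ≤ kvPhi q := div_nonneg hq (Real.sqrt_nonneg _)

theorem kvPhi_sub {q₁ q₂ : ℝ} (h0 : 0 ≤ q₁) (h12 : q₁ ≤ q₂) (h2 : q₂ ^ 2 ≤ 15 / 16) :
    kvPhi q₁ ≤ kvPhi q₂ ∧ kvPhi q₂ - kvPhi q₁ ≤ 100 * (q₂ - q₁) ∧ kvPhi q₂ ≤ 4 * q₂ := by
  have hq2 : 0 ≤ q₂ := h0.trans h12
  have h1 : q₁ ^ 2 ≤ q₂ ^ 2 := by gcongr
  have hg2 : 1 / 4 ≤ Real.sqrt (1 - q₂ ^ 2) := by
    apply Real.le_sqrt_of_sq_le
    linarith
  have hg12 : Real.sqrt (1 - q₂ ^ 2) ≤ Real.sqrt (1 - q₁ ^ 2) := by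
    apply Real.sqrt_le_sqrt
    linarith
  have e1 : Real.sqrt (1 - q₁ ^ 2) ^ 2 = 1 - q₁ ^ 2 := Real.sq_sqrt (by linarith)
  have e2 : Real.sqrt (1 - q₂ ^ 2) ^ 2 = 1 - q₂ ^ 2 := Real.sq_sqrt (by linarith)
  unfold kvPhi
  set g₁ := Real.sqrt (1 - q₁ ^ 2)
  set g₂ := Real.sqrt (1 - q₂ ^ 2)
  have hg1 : 0 < g₁ := by linarith
  have hg2' : 0 < g₂ := by linarith
  have hq2' : q₂ ≤ 1 := by nlinarith
  refine ⟨?_, ?_, ?_⟩
  · exact div_le_div₀ hq2 h12 hg2' hg12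
  · have hd : (g₁ - g₂) * (g₁ + g₂) = (q₂ - q₁) * (q₁ + q₂) := by
      linear_combination e1 - e2
    have hd3 : 0 ≤ g₁ - g₂ := by linarith
    have hd2 : g₁ - g₂ ≤ 4 * (q₂ - q₁) := by
      have h5 : (g₁ - g₂) * (g₁ + g₂) ≤ 2 * (q₂ - q₁) := by
        rw [hd]
        have := mul_le_mul_of_nonneg_left (show q₁ + q₂ ≤ 2 by linarith) (sub_nonneg.2 h12)
        linarith
      have h6 := mul_le_mul_of_nonneg_left (show 1 / 2 ≤ g₁ + g₂ by linarith) hd3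
      linarith
    rw [div_sub_div _ _ hg2'.ne' hg1.ne', div_le_iff₀ (by positivity)]
    have hgg : 1 / 16 ≤ g₂ * g₁ := by nlinarith
    have hg1' : g₁ ≤ 1 := by
      have := Real.sqrt_le_sqrt (show 1 - q₁ ^ 2 ≤ 1 by linarith [sq_nonneg q₁])
      rwa [Real.sqrt_one] at this
    calc q₂ * g₁ - g₂ * q₁ = (q₂ - q₁) * g₁ + q₁ * (g₁ - g₂) := by ring
      _ ≤ (q₂ - q₁) * 1 + 1 * (4 * (q₂ - q₁)) := by
        have : q₁ ≤ 1 := by linarith
        have h3 : 0 ≤ q₂ - q₁ := by linarith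
        gcongr
      _ ≤ 100 * (q₂ - q₁) * (g₂ * g₁) := by
        have h3 : 0 ≤ q₂ - q₁ := by linarith
        have h5 := mul_le_mul_of_nonneg_left hgg h3
        linarith
  · rw [div_le_iff₀ hg2']
    nlinarith

theorem annulus_upper (d : ℕ) (hd : 1 ≤ d) : ∃ C : ℝ, 0 < C ∧ ∀ ξ : E d, ‖ξ‖ = 1 →
    ∀ τ δ : ℝ, 1 / 2 ≤ τ → τ ≤ 1 → 0 ≤ δ → δ ≤ 1 / 4 →
      volume.real {x | x ∈ ball1 d ∧ 1 / 4 ≤ |aa ξ x| ∧
          |qq ξ x - Real.sqrt (1 - τ ^ 2)| ≤ δ}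
        ≤ C * (Real.sqrt (1 - τ ^ 2) + δ) ^ (d - 1) * δ := by
  obtain ⟨n, rfl⟩ : ∃ n, d = n + 1 := ⟨d - 1, by omega⟩
  set V := volume.real (KK (n + 1) 1 1) with hV
  have hVpos : 0 < V := KK_pos (n + 1) one_pos
  refine ⟨(n + 1) * 4 ^ n * 200 * V, by positivity, fun ξ hξ τ δ h1 h2 h3 h4 => ?_⟩
  set ρ := Real.sqrt (1 - τ ^ 2) with hρ
  have hrot := kv_rot ξ hξ (fun t => 1 / 4 ≤ |t| ∧ |Real.sqrt (1 - t ^ 2) - ρ| ≤ δ)
  have hset : {x | x ∈ ball1 (n + 1) ∧ 1 / 4 ≤ |aa ξ x| ∧ |qq ξ x - ρ| ≤ δ} =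
      {x | x ∈ ball1 (n + 1) ∧ (1 / 4 ≤ |aa ξ x| ∧ |Real.sqrt (1 - aa ξ x ^ 2) - ρ| ≤ δ)} := rfl
  rw [hset, hrot]
  have hρ0 : 0 ≤ ρ := Real.sqrt_nonneg _
  have hρ2 : ρ ^ 2 = 1 - τ ^ 2 := Real.sq_sqrt (by nlinarith)
  have hρ3 : ρ ^ 2 ≤ 3 / 4 := by nlinarith
  set q₁ := max (ρ - δ) 0 with hq₁
  set q₂ := min (ρ + δ) (Real.sqrt (15 / 16)) with hq₂
  have hq1 : 0 ≤ q₁ := le_max_right _ _
  have hs15 : Real.sqrt (15 / 16) ^ 2 = 15 / 16 := Real.sq_sqrt (by norm_num)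
  have hq2 : q₂ ^ 2 ≤ 15 / 16 := by
    have hm : q₂ ≤ Real.sqrt (15 / 16) := min_le_right _ _
    have hm0 : 0 ≤ q₂ := le_min (by linarith) (Real.sqrt_nonneg _)
    calc q₂ ^ 2 ≤ Real.sqrt (15 / 16) ^ 2 := by gcongr
      _ = 15 / 16 := hs15
  have hq12 : q₁ ≤ q₂ := by
    apply max_le
    · apply le_min
      · linarith
      · apply Real.le_sqrt_of_sq_le
        have i1 := mul_nonneg hρ0 h3
        have i2 : δ ^ 2 ≤ (1 / 4) ^ 2 := by gcongr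
        have i3 : (ρ - δ) ^ 2 = ρ ^ 2 + δ ^ 2 - 2 * (ρ * δ) := by ring
        linarith
    · exact le_min (by linarith) (Real.sqrt_nonneg _)
  obtain ⟨k1, k2, k3⟩ := kvPhi_sub hq1 hq12 hq2
  have hq1lt : q₁ ^ 2 < 1 := by nlinarith
  have hq2lt : q₂ ^ 2 < 1 := by linarith
  set T₁ := kvPhi q₁
  set T₂ := kvPhi q₂
  have hT1 : 0 ≤ T₁ := kvPhi_nonneg hq1
  have hT2 : 0 ≤ T₂ := hT1.trans k1
  have hsub : {x | x ∈ ball1 (n + 1) ∧ (1 / 4 ≤ |aa (kvE (n + 1)) x| ∧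
      |Real.sqrt (1 - aa (kvE (n + 1)) x ^ 2) - ρ| ≤ δ)} ⊆
        KK (n + 1) T₂ 1 \ KO (n + 1) T₁ 1 := by
    rintro x ⟨hx1, hx2, hx3⟩
    rw [kv_ball] at hx1
    have hn : 0 < ‖x‖ := by
      rcases (norm_nonneg x).eq_or_lt with h | h
      · exfalso
        rw [kv_aa, ← h] at hx2
        norm_num at hx2
      · exact h
    set g := aa (kvE (n + 1)) x with hg
    have hxg : x 0 = ‖x‖ * g := by
      rw [hg, kv_aa, mul_inv_cancel_left₀ hn.ne']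
    have hg1 : g ^ 2 ≤ 1 := by
      have h5 : ‖x‖ ^ 2 - x 0 ^ 2 = ∑ i : Fin (n + 1), x i.succ ^ 2 := kv_r x
      have h6 : 0 ≤ ∑ i : Fin (n + 1), x i.succ ^ 2 := Finset.sum_nonneg fun i _ => sq_nonneg _
      rw [hxg] at h5
      have h7 : 0 ≤ ‖x‖ ^ 2 * (1 - g ^ 2) := by nlinarith
      have h8 : 0 < ‖x‖ ^ 2 := by positivity
      have := nonneg_of_mul_nonneg_right h7 h8
      linarith
    have hg16 : 1 / 16 ≤ g ^ 2 := by
      rw [← sq_abs]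
      nlinarith
    have hq0 : 0 ≤ Real.sqrt (1 - g ^ 2) := Real.sqrt_nonneg _
    have hqq : Real.sqrt (1 - g ^ 2) ^ 2 = 1 - g ^ 2 := Real.sq_sqrt (by linarith)
    set q := Real.sqrt (1 - g ^ 2) with hq
    rw [abs_le] at hx3
    have b1 : q₁ ≤ q := max_le (by linarith) hq0
    have b2 : q ≤ q₂ := le_min (by linarith) (Real.le_sqrt_of_sq_le (by linarith))
    have c1 : q₁ ^ 2 ≤ q ^ 2 := by gcongr
    have c2 : q ^ 2 ≤ q₂ ^ 2 := by gcongr
    have e1 : T₁ ^ 2 * (1 - q₁ ^ 2) = q₁ ^ 2 := kvPhi_sq hq1lt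
    have e2 : T₂ ^ 2 * (1 - q₂ ^ 2) = q₂ ^ 2 := kvPhi_sq hq2lt
    have hx0 : |x 0| ≤ 1 := by
      rw [hxg, abs_mul, abs_of_pos hn]
      have : |g| ≤ 1 := by
        rw [← sq_le_one_iff_abs_le_one]
        exact hg1
      nlinarith [abs_nonneg g]
    have hn2 : 0 < ‖x‖ ^ 2 := by positivity
    refine ⟨⟨hx0, ?_⟩, ?_⟩
    · rw [hxg]
      have i5 : 1 - g ^ 2 ≤ T₂ ^ 2 * g ^ 2 := by
        have i1 : g ^ 2 = 1 - q ^ 2 := by linarith
        rw [i1]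
        have i3 := mul_nonneg (sq_nonneg T₂) (sub_nonneg.2 c2)
        have i4 : T₂ ^ 2 * (1 - q ^ 2) = q₂ ^ 2 + T₂ ^ 2 * (q₂ ^ 2 - q ^ 2) := by
          linear_combination e2
        linarith
      have i6 := mul_le_mul_of_nonneg_left i5 hn2.le
      linear_combination i6
    · rintro ⟨-, hx5⟩
      rw [hxg] at hx5
      have i5 : T₁ ^ 2 * g ^ 2 ≤ 1 - g ^ 2 := by
        have i1 : g ^ 2 = 1 - q ^ 2 := by linarith
        rw [i1]
        have i3 := mul_nonneg (sq_nonneg T₁) (sub_nonneg.2 c1)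
        have i4 : T₁ ^ 2 * (1 - q ^ 2) = q₁ ^ 2 - T₁ ^ 2 * (q ^ 2 - q₁ ^ 2) := by
          linear_combination e1
        linarith
      have i6 := mul_le_mul_of_nonneg_left i5 hn2.le
      exact absurd hx5 (not_lt.2 (by linear_combination i6))
  have hKO : KO (n + 1) T₁ 1 ⊆ KK (n + 1) T₂ 1 := by
    rintro x ⟨h5, h6⟩
    refine ⟨h5, h6.le.trans ?_⟩
    have : T₁ ^ 2 ≤ T₂ ^ 2 := by gcongr
    have h7 := sq_nonneg (x 0)
    gcongr
  have hVd : volume.real (KK (n + 1) T₂ 1 \ KO (n + 1) T₁ 1) =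
      volume.real (KK (n + 1) T₂ 1) - volume.real (KO (n + 1) T₁ 1) :=
    measureReal_sdiff hKO (KO_meas _ _ _) (KK_fin _ _ _)
  have hfin : volume (KK (n + 1) T₂ 1 \ KO (n + 1) T₁ 1) ≠ ⊤ :=
    ne_of_lt (lt_of_le_of_lt (measure_mono sdiff_subset) (KK_fin _ _ _).lt_top)
  have hT2' : T₂ ≤ 4 * (ρ + δ) := by
    have : q₂ ≤ ρ + δ := min_le_left _ _
    linarith
  have hdiff : T₂ - T₁ ≤ 200 * δ := by
    have i1 : q₂ ≤ ρ + δ := min_le_left _ _
    have i2 : ρ - δ ≤ q₁ := le_max_left _ _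
    linarith
  have hd0 : 0 ≤ T₂ - T₁ := by linarith
  calc _ ≤ volume.real (KK (n + 1) T₂ 1 \ KO (n + 1) T₁ 1) := measureReal_mono hsub hfin
    _ = volume.real (KK (n + 1) T₂ 1) - volume.real (KO (n + 1) T₁ 1) := hVd
    _ ≤ T₂ ^ (n + 1) * V - T₁ ^ (n + 1) * V := by
        rw [KK_vol (n + 1) hd hT2]
        have := KO_vol (n + 1) hd hT1 1
        linarith
    _ = (T₂ ^ (n + 1) - T₁ ^ (n + 1)) * V := by ring
    _ ≤ ((n + 1) * T₂ ^ n * (T₂ - T₁)) * V := by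
        have := kv_pow_sub (n := n) hT1 k1
        gcongr
    _ ≤ ((n + 1) * (4 * (ρ + δ)) ^ n * (200 * δ)) * V := by
        gcongr
    _ = (n + 1) * 4 ^ n * 200 * V * (ρ + δ) ^ (n + 1 - 1) * δ := by
        rw [mul_pow, Nat.add_sub_cancel]
        ring

end Pool.Agent.Helper66.DS
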